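import Pool.Agent.Helper79.GS.St5
import Pool.Agent.Helper79.GS.Lib

/-!
# Project GS (MP_c2d095_lc): module EW, the functions of the word are E2
-/

set_option autoImplicit false

namespace Pool.Agent.Helper99.GS

open Pool.Agent.Helper79.GS Pool.Agent.Helper19.SK Pool.Agent.Helper73.DC Finset

private theorem e_ite' {α : Type} [Fintype α] {p : List α → (ℕ → ℕ) → Prop}
    [∀ w v, Decidable (p w v)] {F G : VF α} (hp : E2P p) (hF : E2 F) (hG : E2 G) :
    E2 (fun w v => if p w v then F w v else G w v) := by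
  have h := e_ite hp hF hG
  convert h

private theorem e_pos1 : E2 (α := Fin 5) (fun w _ => pos1 w) :=
  e_bmin (p := fun w i _ => lett w i = cd (4 : Fin 5) + 1) (H := fun w _ => w.length)
    (e_eq (e_lett (e_get 0)) (e_con _)) e_len

private theorem e_nW : E2 (α := Fin 5) (fun w _ => nW w) := e_sub e_pos1 (e_con 1)

private theorem e_pos2 : E2 (α := Fin 5) (fun w _ => pos2 w) :=
  e_bmin (p := fun w i _ => pos1 w < i ∧ lett w i = cd (4 : Fin 5) + 1)
    (H := fun w _ => w.length)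
    (e_and (e_lt e_pos1 (e_get 0)) (e_eq (e_lett (e_get 0)) (e_con _))) e_len

private theorem e_mW : E2 (α := Fin 5) (fun w _ => mW w) :=
  e_sub (e_sub e_len e_pos2) (e_con 1)

private theorem e_plW : E2 (α := Fin 5) (fun w _ => plW w) :=
  e_ite' (p := fun w _ => lett w 0 = cd (1 : Fin 5) + 1)
    (e_eq (e_lett (e_con 0)) (e_con _)) (e_con 1) (e_con 0)

private theorem e_nn : E2 (α := Fin 5) (fun w _ => nW w * nW w) := e_mul e_nW e_nW

private theorem e_RW : E2 (α := Fin 5) (fun w _ => RW w) :=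
  e_add e_mW (e_mul (e_con 2) (e_powc (e_add e_nn (e_con 1)) 2))

private theorem e_cntW {J P : VF (Fin 5)} (hJ : E2 J) (hP : E2 P) :
    E2 (fun w v => cntW w (J w v) (P w v)) := by
  have h1 : E2 (α := Fin 5)
      (fun w v => lett w (nW w + 2 + J w v * (nW w * nW w) + P w v)) :=
    e_lett (e_add (e_add (e_add e_nW (e_con 2)) (e_mul hJ e_nn)) hP)
  exact e_ite' (p := fun w v =>
      lett w (nW w + 2 + J w v * (nW w * nW w) + P w v) = cd (1 : Fin 5) + 1)
    (e_eq h1 (e_con _)) (e_con 1)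
    (e_ite' (p := fun w v =>
      lett w (nW w + 2 + J w v * (nW w * nW w) + P w v) = cd (2 : Fin 5) + 1)
      (e_eq h1 (e_con _)) (e_con 2) (e_con 0))

private theorem e_b0W {N : VF (Fin 5)} (hN : E2 N) : E2 (fun w v => b0W (N w v) w) :=
  e_sum (T := fun w i v => cntW w 0 i * pw (N w v) 3 i) (H := fun w _ => nW w * nW w)
    (e_mul (e_cntW (e_con 0) (e_get 0)) (e_pw (e_sh hN) (e_con 3) (e_get 0))) e_nn

private theorem e_H0W {U : VF (Fin 5)} (hU : E2 U) : E2P (fun w v => H0W w (U w v)) := by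
  have h1 : E2P (α := Fin 5) (fun w v => ∀ p < nW w * nW w,
      dg 3 (U w (fun i => v (i + 1))) p = cntW w (v 0) p) :=
    e_all (p := fun w q v => dg 3 (U w (fun i => v (i + 1))) q = cntW w (v 0) q)
      (H := fun w _ => nW w * nW w)
      (e_eq (e_dg (e_con 3) (e_sh (e_sh hU)) (e_get 0)) (e_cntW (e_get 1) (e_get 0))) e_nn
  exact e_ex (p := fun w j v => 1 ≤ j ∧ nW w + 2 + (j + 1) * (nW w * nW w) ≤ pos2 w ∧
      ∀ p < nW w * nW w, dg 3 (U w v) p = cntW w j p) (H := fun w _ => w.length)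
    (e_and (e_le (e_con 1) (e_get 0)) (e_and
      (e_le (e_add (e_add e_nW (e_con 2)) (e_mul (e_add (e_get 0) (e_con 1)) e_nn)) e_pos2)
      h1)) e_len

theorem hEW : StEW :=
  ⟨e_pos1, e_nW, e_pos2, e_mW, e_plW, e_RW, fun _ _ hJ hP => e_cntW hJ hP, fun _ hN => e_b0W hN,
    fun _ hU => e_H0W hU,
    fun _ _ _ hA hB hX => e_or (e_H0W hX) (e_or (e_eq hX hA) (e_eq hX hB))⟩

end Pool.Agent.Helper99.GS
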